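import Pool.Agent.Run7.h378.IfaceD

/-! Pieces D4a, D4b, D4c of helper378's project MP_5766af_al. -/

noncomputable section

namespace Pool.Agent.Run7.h270.MP57

open Finset MulOpposite

theorem p_dens : Pool.Agent.Run7.h378.S_dens := by
  intro D _ S h1 hmul m d c hc0 hc
  classical
  -- induction on the size of the support
  suffices H : ∀ (n : ℕ) (c : Fin m → D), (univ.filter (fun j => c j ≠ 0)).card ≤ n → c ≠ 0 →
      (∀ s ∈ S, ∑ j, c j * s * d j = 0) →
      ∃ c' : Fin m → D, c' ≠ 0 ∧ (∀ j, ∀ s ∈ S, s * c' j = c' j * s) ∧ ∑ j, c' j * d j = 0 from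
    H _ c le_rfl hc0 hc
  intro n
  induction n with
  | zero =>
    intro c hn hc0 _
    exfalso
    apply hc0
    funext j
    by_contra hj
    have : j ∈ univ.filter (fun j => c j ≠ 0) := by simpa using hj
    have h2 : (univ.filter (fun j => c j ≠ 0)) = ∅ := Finset.card_eq_zero.mp (Nat.le_zero.mp hn)
    rw [h2] at this
    simp at this
  | succ n ih =>
    intro c hn hc0 hc
    obtain ⟨j₀, hj₀⟩ : ∃ j, c j ≠ 0 := by
      by_contra h
      push Not at h
      exact hc0 (funext h)
    set b : Fin m → D := fun j => (c j₀)⁻¹ * c j with hb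
    have hbj₀ : b j₀ = 1 := by simp [hb, hj₀]
    have hbs : ∀ s ∈ S, ∑ j, b j * s * d j = 0 := by
      intro s hs
      have : ∑ j, b j * s * d j = (c j₀)⁻¹ * ∑ j, c j * s * d j := by
        rw [Finset.mul_sum]
        exact Finset.sum_congr rfl fun j _ => by simp only [hb, mul_assoc]
      rw [this, hc s hs, mul_zero]
    by_cases hcomm : ∀ j, ∀ s ∈ S, s * b j = b j * s
    · refine ⟨b, ?_, hcomm, ?_⟩
      · intro h
        have := congrFun h j₀
        rw [hbj₀] at this
        exact one_ne_zero this
      · simpa using hbs 1 h1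
    · push Not at hcomm
      obtain ⟨j₁, s', hs', hne⟩ := hcomm
      refine ih (fun j => b j * s' - s' * b j) ?_ ?_ ?_
      · -- the support is smaller
        have hsub : (univ.filter (fun j => b j * s' - s' * b j ≠ 0)) ⊆
            (univ.filter (fun j => c j ≠ 0)).erase j₀ := by
          intro j hj
          simp only [mem_filter, mem_univ, true_and, ne_eq] at hj
          simp only [mem_erase, mem_filter, mem_univ, true_and, ne_eq]
          refine ⟨?_, ?_⟩
          · rintro rfl
            apply hj
            rw [hbj₀]; simp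
          · intro h0
            apply hj
            simp [hb, h0]
        have h3 := Finset.card_le_card hsub
        have hmem : j₀ ∈ univ.filter (fun j => c j ≠ 0) := by simpa using hj₀
        rw [Finset.card_erase_of_mem hmem] at h3
        omega
      · intro h
        have := congrFun h j₁
        simp only [Pi.zero_apply, sub_eq_zero] at this
        exact hne this.symm
      · intro s hs
        have e1 : ∑ j, (b j * s' - s' * b j) * s * d j =
            ∑ j, b j * (s' * s) * d j - s' * ∑ j, b j * s * d j := by
          rw [Finset.mul_sum, ← Finset.sum_sub_distrib]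
          exact Finset.sum_congr rfl fun j _ => by noncomm_ring
        rw [e1, hbs _ (hmul _ hs' _ hs), hbs _ hs]
        simp

theorem p_artin : Pool.Agent.Run7.h378.S_artin := by
  intro D _ R hinv m e heR hind c hcR hy
  by_contra hc
  let R' : Subfield D := { R with inv_mem' := hinv }
  have hmem : ∀ x : D, x ∈ R' ↔ x ∈ R := fun x => Iff.rfl
  let e' : Fin m → R' := fun j => ⟨e j, heR j⟩
  let c' : Fin m → R' := fun j => ⟨c j, hcR j⟩
  obtain ⟨b, hb0, hbc, hbs⟩ := p_dens (R'ᵐᵒᵖ) Set.univ trivial (fun _ _ _ _ => trivial) m
    (fun j => op (e' j)) (fun j => op (c' j)) (by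
      intro h
      apply hc
      funext j
      have h1 := congrArg unop (congrFun h j)
      simp only [unop_op, Pi.zero_apply, unop_zero] at h1
      have h2 := congrArg Subtype.val h1
      simpa [c'] using h2) (by
      intro s _
      have : ∑ j, op (c' j) * s * op (e' j) = op (∑ j, e' j * unop s * c' j) := by
        rw [Finset.op_sum]
        refine Finset.sum_congr rfl fun j _ => ?_
        apply unop_injective
        simp [mul_assoc]
      rw [this]
      have h0 : (∑ j, e' j * unop s * c' j : R') = 0 := by
        apply Subtype.ext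
        have := hy (unop s : R') (unop s).2
        simpa [e', c'] using this
      rw [h0, op_zero])
  apply hb0
  have hc2 := hind (fun j => ((unop (b j) : R') : D)) (fun j => (unop (b j)).2) (by
      intro j s hs
      have h1 := hbc j (op ⟨s, hs⟩) trivial
      have h2 := congrArg (fun z => ((unop z : R') : D)) h1
      simp only [unop_mul, unop_op] at h2
      exact h2.symm) (by
      have h2 := congrArg (fun z => ((unop z : R') : D)) hbs
      simp only [unop_zero, Finset.unop_sum, unop_mul, unop_op] at h2
      rw [← show ((∑ j, e' j * unop (b j) : R') : D) = ∑ j, ((unop (b j) : R') : D) * e j from ?_]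
      · exact h2
      · push_cast
        refine Finset.sum_congr rfl fun j _ => ?_
        have h1 := hbc j (op (e' j)) trivial
        have h3 := congrArg (fun z => ((unop z : R') : D)) h1
        simp only [unop_mul, unop_op] at h3
        exact h3.symm)
  funext j
  have h4 := congrFun hc2 j
  simp only [Pi.zero_apply] at h4
  apply unop_injective
  apply Subtype.ext
  simpa using h4

theorem p_aw : Pool.Agent.Run7.h378.S_aw := by
  intro D _ R hinv m e heR hind t htR
  let R' : Subfield D := { R with inv_mem' := hinv }
  let e' : Fin m → R' := fun j => ⟨e j, heR j⟩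
  let t' : Fin m → R' := fun j => ⟨t j, htR j⟩
  let G : Set (Fin m → R') := {v | ∃ s r : R', ∀ j, v j = s * e' j * r}
  let V : Submodule R' (Fin m → R') := Submodule.span R' G
  have hV : V = ⊤ := by
    by_contra hne
    obtain ⟨f, hf0, hf⟩ := Submodule.exists_le_ker_of_lt_top V (lt_top_iff_ne_top.mpr hne)
    classical
    have hfv : ∀ v : Fin m → R', f v = ∑ j, v j * f (Pi.single j 1) := by
      intro v
      conv_lhs => rw [pi_eq_sum_univ v]
      rw [map_sum]
      refine Finset.sum_congr rfl fun j _ => ?_
      rw [map_smul, smul_eq_mul]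
      congr 2
      funext i
      by_cases h : i = j
      · subst h; simp
      · simp [Pi.single_apply, h, Ne.symm h]
    have hc := p_artin D R hinv m e heR hind (fun j => ((f (Pi.single j 1) : R') : D))
      (fun j => (f (Pi.single j 1)).2) (by
        intro y hy
        have h1 : (fun j => e' j * (⟨y, hy⟩ : R')) ∈ V :=
          Submodule.subset_span ⟨1, ⟨y, hy⟩, fun j => by simp⟩
        have h2 := hf h1
        rw [LinearMap.mem_ker, hfv] at h2
        have h3 := congrArg (fun z : R' => (z : D)) h2
        push_cast at h3
        simpa [e'] using h3)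
    apply hf0
    apply LinearMap.ext
    intro v
    rw [hfv]
    simp only [LinearMap.zero_apply]
    apply Finset.sum_eq_zero
    intro j _
    have h4 : f (Pi.single j 1) = 0 := by
      apply Subtype.ext
      have := congrFun hc j
      simpa using this
    rw [h4, mul_zero]
  have ht : t' ∈ V := by rw [hV]; trivial
  -- unfold membership
  have key : ∀ v ∈ V, ∃ (n : ℕ) (s r : Fin n → D), (∀ i, s i ∈ R) ∧ (∀ i, r i ∈ R) ∧
        ∀ j, ∑ i, s i * e j * r i = ((v j : R') : D) := by
    intro v hv
    induction hv using Submodule.span_induction with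
    | mem x hx =>
      obtain ⟨s, r, h⟩ := hx
      refine ⟨1, fun _ => s, fun _ => r, fun _ => s.2, fun _ => r.2, fun j => ?_⟩
      simp [h j, e']
    | zero => exact ⟨0, Fin.elim0, Fin.elim0, fun i => i.elim0, fun i => i.elim0, fun j => by simp⟩
    | add x y _ _ hx hy =>
      obtain ⟨n₁, s₁, r₁, hs₁, hr₁, h₁⟩ := hx
      obtain ⟨n₂, s₂, r₂, hs₂, hr₂, h₂⟩ := hy
      refine ⟨n₁ + n₂, Fin.append s₁ s₂, Fin.append r₁ r₂, ?_, ?_, ?_⟩
      · intro i
        refine Fin.addCases (fun i => ?_) (fun i => ?_) i
        · simpa using hs₁ i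
        · simpa using hs₂ i
      · intro i
        refine Fin.addCases (fun i => ?_) (fun i => ?_) i
        · simpa using hr₁ i
        · simpa using hr₂ i
      · intro j
        rw [Fin.sum_univ_add]
        simp [h₁ j, h₂ j]
    | smul a x _ hx =>
      obtain ⟨n₁, s₁, r₁, hs₁, hr₁, h₁⟩ := hx
      refine ⟨n₁, fun i => (a : D) * s₁ i, r₁, fun i => R.mul_mem a.2 (hs₁ i), hr₁, fun j => ?_⟩
      have : ((a • x) j : D) = (a : D) * (x j : D) := by simp
      rw [this, ← h₁ j, Finset.mul_sum]
      exact Finset.sum_congr rfl fun i _ => by simp only [mul_assoc]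
  exact key t' ht

end Pool.Agent.Run7.h270.MP57
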