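import Pool.Agent.Run7.h378.IfaceF

/-! Pieces F9a, F9b, F9c of helper378's project MP_5766af_al. -/

noncomputable section

namespace Pool.Agent.Run7.h270.MP57

open Finset Polynomial Pool.Agent.Run7.h378

theorem mem_acl_iff {K : Type} [Field K] (S : Set K) (y : K) :
    y ∈ acl S ↔ ∃ p : K[X], p ≠ 0 ∧ (∀ i, p.coeff i ∈ Subfield.closure S) ∧ p.eval y = 0 := by
  constructor
  · rintro ⟨p, hp0, hp⟩
    refine ⟨p.map (algebraMap (Subfield.closure S) K), ?_, ?_, ?_⟩
    · exact (Polynomial.map_ne_zero_iff (algebraMap (Subfield.closure S) K).injective).mpr hp0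
    · intro i
      rw [coeff_map]
      exact (p.coeff i).2
    · rw [eval_map_algebraMap]; exact hp
  · rintro ⟨p, hp0, hc, hp⟩
    have hl : p ∈ Polynomial.lifts (algebraMap (Subfield.closure S) K) := by
      rw [Polynomial.lifts_iff_coeff_lifts]
      intro i
      exact ⟨⟨p.coeff i, hc i⟩, rfl⟩
    obtain ⟨q, hq⟩ := (Polynomial.mem_lifts _).mp hl
    refine ⟨q, ?_, ?_⟩
    · rintro rfl
      simp at hq
      exact hp0 hq.symm
    · rw [← eval_map_algebraMap, hq]; exact hp

theorem acl_mono {K : Type} [Field K] {S T : Set K} (h : S ⊆ T) : acl S ⊆ acl T := by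
  intro y hy
  rw [mem_acl_iff] at hy ⊢
  obtain ⟨p, h0, hc, hp⟩ := hy
  exact ⟨p, h0, fun i => Subfield.closure_mono h (hc i), hp⟩

theorem p_gen1 : Pool.Agent.Run7.h378.S_gen1 := by
  intro K _ _ Ω L a A B ha hA hB hAa hBa haL hcL
  suffices hBL : B ∈ L by
    refine ⟨hBL, ?_⟩
    have : A = (A + a * B) - a * B := by ring
    rw [this]
    exact L.sub_mem hcL (L.mul_mem haL hBL)
  by_contra hBL
  -- the small field
  let X : Subfield K := Subfield.closure ((L : Set K) ∩ (Ω : Set K))
  have hXL : X ≤ L := Subfield.closure_le.mpr Set.inter_subset_left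
  have hXΩ : X ≤ Ω := Subfield.closure_le.mpr Set.inter_subset_right
  have hAX : IsAlgebraic X A := hAa
  have hBX : IsAlgebraic X B := hBa
  -- integrality over L
  have up : ∀ y : K, IsAlgebraic X y → IsAlgebraic L y := by
    intro y hy
    have h1 : y ∈ acl ((L : Set K) ∩ (Ω : Set K)) := hy
    have h2 : y ∈ acl (L : Set K) := acl_mono Set.inter_subset_left h1
    have h3 : IsAlgebraic (Subfield.closure (L : Set K)) y := h2
    rwa [Subfield.closure_eq] at h3
  have hAL := up A hAX
  have hBL' := up B hBX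
  let Kb := AlgebraicClosure K
  let E : IntermediateField L K := algebraicClosure L K
  have hAE : A ∈ E := (mem_algebraicClosure_iff).mpr hAL
  have hBE : B ∈ E := (mem_algebraicClosure_iff).mpr hBL'
  -- another root of the minimal polynomial
  have hint : IsIntegral L B := hBL'.isIntegral
  obtain ⟨β, hβ, hne⟩ : ∃ β : Kb, aeval β (minpoly L B) = 0 ∧ β ≠ algebraMap K Kb B := by
    by_contra hcon
    push Not at hcon
    have hsep : (minpoly L B).Separable := (minpoly.irreducible hint).separable
    have hsp : ((minpoly L B).map (algebraMap L Kb)).Splits := IsAlgClosed.splits _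
    have hcard : Fintype.card ((minpoly L B).rootSet Kb) = (minpoly L B).natDegree :=
      Polynomial.card_rootSet_eq_natDegree hsep hsp
    have hle : Fintype.card ((minpoly L B).rootSet Kb) ≤ 1 := by
      rw [Fintype.card_le_one_iff]
      rintro ⟨u, hu⟩ ⟨v, hv⟩
      have hu2 := (Polynomial.mem_rootSet.mp hu).2
      have hv2 := (Polynomial.mem_rootSet.mp hv).2
      exact Subtype.ext ((hcon u hu2).trans (hcon v hv2).symm)
    have hd1 : (minpoly L B).natDegree = 1 := by
      have := minpoly.natDegree_pos hint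
      omega
    have hd2 : (minpoly L B).degree = 1 := by
      rw [Polynomial.degree_eq_natDegree (minpoly.ne_zero hint), hd1]; rfl
    obtain ⟨z, hz⟩ := minpoly.mem_range_of_degree_eq_one L B hd2
    apply hBL
    rw [← hz]
    exact z.2
  obtain ⟨φ, hφ⟩ := IntermediateField.exists_algHom_of_splits_of_aeval (F := L) (E := E) (K := Kb)
    (fun s => ⟨by
        have h1 : IsAlgebraic L (s : K) := (mem_algebraicClosure_iff).mp s.2
        have h2 : IsIntegral L (s : K) := h1.isIntegral
        exact (isIntegral_algebraMap_iff (algebraMap E K).injective).mp h2,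
      IsAlgClosed.splits _⟩) (x := (⟨B, hBE⟩ : E)) (y := β) (by
        have : minpoly L (⟨B, hBE⟩ : E) = minpoly L B := by
          rw [← minpoly.algebraMap_eq (algebraMap E K).injective]
          rfl
        rw [this]; exact hβ)
  -- the relation
  have hL : ∀ x : L, φ (algebraMap L E x) = algebraMap K Kb x := by
    intro x
    rw [AlgHom.commutes]
    rfl
  have hrel : algebraMap K Kb (A + a * B) = φ ⟨A, hAE⟩ + algebraMap K Kb a * β := by
    rw [← hφ, ← hL ⟨A + a * B, hcL⟩, ← hL ⟨a, haL⟩, ← map_mul, ← map_add]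
    congr 1
  -- everything algebraic over X
  have algX : ∀ y : K, IsAlgebraic X y → IsAlgebraic X (algebraMap K Kb y) := fun y hy =>
    hy.algebraMap
  have algφ : ∀ y : E, IsAlgebraic X (y : K) → IsAlgebraic X (φ y) := by
    rintro y ⟨p, hp0, hp⟩
    refine ⟨p, hp0, ?_⟩
    let i : X →+* L := Subfield.inclusion hXL
    have h1 : aeval y (p.map i) = 0 := by
      apply (algebraMap E K).injective
      rw [map_zero, ← Polynomial.aeval_algebraMap_apply]
      rw [aeval_def, eval₂_map]
      rw [aeval_def] at hp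
      exact hp
    have h2 := congrArg φ h1
    rw [map_zero, ← Polynomial.aeval_algHom_apply, aeval_def, eval₂_map] at h2
    rw [aeval_def]
    exact h2
  have h1 : IsAlgebraic X (φ ⟨A, hAE⟩) := algφ _ hAX
  have h2 : IsAlgebraic X β := by rw [← hφ]; exact algφ _ hBX
  have h3 : algebraMap K Kb a = (algebraMap K Kb A - φ ⟨A, hAE⟩) / (β - algebraMap K Kb B) := by
    rw [eq_div_iff (sub_ne_zero.mpr hne)]
    rw [map_add, map_mul] at hrel
    linear_combination -hrel
  have h4 : IsAlgebraic X (algebraMap K Kb a) := by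
    rw [h3, div_eq_mul_inv]
    exact ((algX A hAX).sub h1).mul (h2.sub (algX B hBX)).inv
  have h5 : IsAlgebraic X a := (isAlgebraic_algebraMap_iff (algebraMap K Kb).injective).mp h4
  apply ha
  exact acl_mono Set.inter_subset_right h5

theorem p_gen : Pool.Agent.Run7.h378.S_gen := by
  intro hf h1 K _ _ Ω L k
  induction k with
  | zero => intro a B A _ _ _ _ _ _ _ j; exact j.elim0
  | succ k ih =>
    intro a B A ha hA hB hAa hBa haL hsum
    set T : Set K := (Ω : Set K) ∪ {h | ∃ i, i < Fin.last k ∧ h = a i} with hT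
    let Ω' : Subfield K := Subfield.closure T
    have hΩ : Ω ≤ Ω' := fun x hx => Subfield.subset_closure (Or.inl hx)
    have haΩ : ∀ i : Fin k, a i.castSucc ∈ Ω' := fun i =>
      Subfield.subset_closure (Or.inr ⟨i.castSucc, Fin.castSucc_lt_last i, rfl⟩)
    rw [Fin.sum_univ_castSucc, ← add_assoc] at hsum
    have hmono : acl ((L : Set K) ∩ (Ω : Set K)) ⊆ acl ((L : Set K) ∩ (Ω' : Set K)) :=
      hf.mono K _ _ (fun x hx => ⟨hx.1, hΩ hx.2⟩)
    obtain ⟨F, hF⟩ := hf.field K ((L : Set K) ∩ (Ω' : Set K))
    have hA' : A + ∑ i : Fin k, a i.castSucc * B i.castSucc ∈ acl ((L : Set K) ∩ (Ω' : Set K)) := by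
      rw [← hF]
      refine F.add_mem ?_ (F.sum_mem fun i _ => F.mul_mem ?_ ?_)
      · rw [← SetLike.mem_coe, hF]; exact hmono hAa
      · rw [← SetLike.mem_coe, hF]
        exact hf.sub K _ ⟨haL _, haΩ i⟩
      · rw [← SetLike.mem_coe, hF]; exact hmono (hBa _)
    have h2 := h1 K Ω' L (a (Fin.last k)) (A + ∑ i : Fin k, a i.castSucc * B i.castSucc)
      (B (Fin.last k)) (by
        intro h
        apply ha (Fin.last k)
        have h3 : acl (Ω' : Set K) ⊆ acl T := by
          have : (Ω' : Set K) ⊆ acl T := by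
            obtain ⟨F', hF'⟩ := hf.field K T
            have h5 : Ω' ≤ F' := by
              apply Subfield.closure_le.mpr
              rw [hF']
              exact hf.sub K T
            intro x hx
            rw [← hF']
            exact h5 hx
          exact (hf.mono K _ _ this).trans (hf.idem K T)
        exact h3 h)
      (Ω'.add_mem (hΩ hA) (Ω'.sum_mem fun i _ => Ω'.mul_mem (haΩ i) (hΩ (hB _))))
      (hΩ (hB _)) hA' (hmono (hBa _)) (haL _) hsum
    have h3 := ih (fun i => a i.castSucc) (fun i => B i.castSucc) A (by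
      intro j h
      apply ha j.castSucc
      refine hf.mono K _ _ ?_ h
      rintro x (hx | ⟨i, hi, rfl⟩)
      · exact Or.inl hx
      · exact Or.inr ⟨i.castSucc, by simpa using hi, rfl⟩)
      hA (fun j => hB _) hAa (fun j => hBa _) (fun j => haL _) h2.2
    intro j
    refine Fin.lastCases ?_ (fun i => ?_) j
    · exact h2.1
    · exact h3 i

theorem p_quad : Pool.Agent.Run7.h378.S_quad := by
  intro K _ L S y y' hSL hs hm hy hy'
  by_contra hyL
  rw [mem_acl_iff] at hy
  obtain ⟨p, hp0, hpc, hp⟩ := hy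
  have hcl : Subfield.closure S ≤ L := Subfield.closure_le.mpr hSL
  -- lift p to L
  have hl : p ∈ Polynomial.lifts (algebraMap L K) := by
    rw [Polynomial.lifts_iff_coeff_lifts]
    intro i
    exact ⟨⟨p.coeff i, hcl (hpc i)⟩, rfl⟩
  obtain ⟨q, hq⟩ := (Polynomial.mem_lifts _).mp hl
  set s : L := ⟨y + y', hs⟩
  set m : L := ⟨y * y', hm⟩
  let Q : L[X] := X ^ 2 - C s * X + C m
  have hQm : Q.Monic := by
    unfold Q; monicity!
  have hQd : Q.natDegree = 2 := by
    unfold Q; compute_degree!
  have hQy : ∀ z : K, aeval z Q = (z - y) * (z - y') := by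
    intro z
    have h1 : algebraMap L K s = y + y' := rfl
    have h2 : algebraMap L K m = y * y' := rfl
    simp only [Q, map_add, map_sub, map_pow, map_mul, aeval_X, aeval_C, h1, h2]
    ring
  have hint : IsIntegral L y := ⟨Q, hQm, by rw [← aeval_def, hQy]; simp⟩
  have hdvd : minpoly L y ∣ Q := minpoly.dvd L y (by rw [hQy]; simp)
  have hdeg : (minpoly L y).natDegree ≤ 2 := hQd ▸ Polynomial.natDegree_le_of_dvd hdvd hQm.ne_zero
  have hpos := minpoly.natDegree_pos hint
  have hne1 : (minpoly L y).natDegree ≠ 1 := by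
    intro h1
    have hd2 : (minpoly L y).degree = 1 := by
      rw [Polynomial.degree_eq_natDegree (minpoly.ne_zero hint), h1]; rfl
    obtain ⟨z, hz⟩ := minpoly.mem_range_of_degree_eq_one L y hd2
    apply hyL
    rw [← hz]
    exact z.2
  have h2 : (minpoly L y).natDegree = 2 := by omega
  have hQ : minpoly L y = Q :=
    (Polynomial.eq_of_monic_of_dvd_of_natDegree_le (minpoly.monic hint) hQm hdvd (by omega)).symm
  have hdp : minpoly L y ∣ q := minpoly.dvd L y (by
    rw [← eval_map_algebraMap, hq, hp])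
  obtain ⟨r, hr⟩ := hdp
  apply hy'
  rw [mem_acl_iff]
  refine ⟨p, hp0, hpc, ?_⟩
  rw [← hq, eval_map_algebraMap, hr, hQ, map_mul, hQy]
  simp

end Pool.Agent.Run7.h270.MP57
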