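import Pool.Agent.Run7.h378.IfaceD
import Pool.Agent.Run7.h270.MP57.F9

/-! Piece D7a of helper378's project MP_5766af_al, with general lemmas. -/

noncomputable section

namespace Pool.Agent.Run7.h270.MP57

open Finset Polynomial Pool.Agent.Run7.h378

/-- double centraliser as a division subring -/
def cc {D : Type} [DivisionRing D] (S : Set D) : Subfield D :=
  { Subring.centralizer (Set.centralizer S) with
    inv_mem' := fun _ hx => Set.inv_mem_centralizer₀ hx }

theorem mem_cc {D : Type} [DivisionRing D] {S : Set D} {x : D} :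
    x ∈ cc S ↔ ∀ c, (∀ s ∈ S, s * c = c * s) → c * x = x * c := by
  change x ∈ Set.centralizer (Set.centralizer S) ↔ _
  simp only [Set.mem_centralizer_iff]

theorem subset_cc {D : Type} [DivisionRing D] {S : Set D} {x : D} (hx : x ∈ S) : x ∈ cc S :=
  mem_cc.mpr fun _ hc => (hc x hx).symm

theorem cc_comm {D : Type} [DivisionRing D] {S : Set D}
    (h : ∀ a ∈ S, ∀ b ∈ S, a * b = b * a) {x y : D} (hx : x ∈ cc S) (hy : y ∈ cc S) :
    x * y = y * x := by
  have h1 : ∀ s ∈ S, s * y = y * s := fun s hs => mem_cc.mp hy s (fun t ht => h t ht s hs)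
  exact (mem_cc.mp hx y h1).symm

/-- the field structure -/
abbrev ccField {D : Type} [DivisionRing D] {S : Set D}
    (h : ∀ a ∈ S, ∀ b ∈ S, a * b = b * a) : Field (cc S) :=
  { (inferInstance : DivisionRing (cc S)) with
    mul_comm := fun x y => Subtype.ext (cc_comm h x.2 y.2) }

theorem exists_relation {K D : Type} [Field K] [DivisionRing D] (Z : Subfield K) (ι : K →+* D)
    (N : ℕ) (e : Fin N → D) (v : Fin (N + 1) → D)
    (h : ∀ i, ∃ x : Fin N → K, (∀ j, x j ∈ Z) ∧ v i = ∑ j, ι (x j) * e j) :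
    ∃ z : Fin (N + 1) → K, (∀ i, z i ∈ Z) ∧ z ≠ 0 ∧ ∑ i, ι (z i) * v i = 0 := by
  classical
  choose x hxZ hx using h
  let X : Matrix (Fin (N + 1)) (Fin N) Z := fun i j => ⟨x i j, hxZ i j⟩
  have hker : LinearMap.ker X.vecMulLinear ≠ ⊥ := LinearMap.ker_ne_bot_of_finrank_lt (by simp)
  obtain ⟨z, hz, hz0⟩ := (Submodule.ne_bot_iff _).mp hker
  refine ⟨fun i => (z i : K), fun i => (z i).2, ?_, ?_⟩
  · intro h0
    apply hz0
    funext i
    exact Subtype.ext (congrFun h0 i)
  · rw [LinearMap.mem_ker] at hz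
    have hz' : ∀ j, ∑ i, (z i : K) * x i j = 0 := by
      intro j
      have h1 := congrFun hz j
      rw [Matrix.vecMulLinear_apply] at h1
      simp only [Matrix.vecMul, dotProduct, X, Pi.zero_apply] at h1
      have h2 := congrArg (fun t : Z => (t : K)) h1
      push_cast at h2
      simpa using h2
    calc ∑ i, ι (z i) * v i = ∑ i, ∑ j, ι ((z i : K) * x i j) * e j := by
          refine Finset.sum_congr rfl fun i _ => ?_
          rw [hx i, Finset.mul_sum]
          exact Finset.sum_congr rfl fun j _ => by rw [map_mul, mul_assoc]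
      _ = ∑ j, ∑ i, ι ((z i : K) * x i j) * e j := Finset.sum_comm
      _ = ∑ j, ι (∑ i, (z i : K) * x i j) * e j := by
          refine Finset.sum_congr rfl fun j _ => ?_
          rw [map_sum, Finset.sum_mul]
      _ = 0 := by
          refine Finset.sum_eq_zero fun j _ => ?_
          rw [hz' j, map_zero, zero_mul]

theorem acl_map {K L : Type} [Field K] [Field L] (Z : Subfield K) (κ : Z →+* L) (S : Set K)
    (hS : ∀ s ∈ S, s ∈ Z) (y : K) (hyZ : y ∈ Z) (hy : y ∈ acl S) :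
    κ ⟨y, hyZ⟩ ∈ acl {u | ∃ s, ∃ hs : s ∈ S, u = κ ⟨s, hS s hs⟩} := by
  rw [mem_acl_iff] at hy ⊢
  obtain ⟨p, hp0, hpc, hp⟩ := hy
  set W : Subfield L := Subfield.closure {u | ∃ s, ∃ hs : s ∈ S, u = κ ⟨s, hS s hs⟩} with hW
  have hcl : Subfield.closure S ≤ Z := Subfield.closure_le.mpr hS
  have hcl2 : ∀ c, ∀ hc : c ∈ Subfield.closure S, κ ⟨c, hcl hc⟩ ∈ W := by
    intro c hc
    have h1 : Subfield.closure S ≤ (W.comap κ).map Z.subtype := by
      rw [Subfield.closure_le]
      intro s hs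
      refine Subfield.mem_map.mpr ⟨⟨s, hS s hs⟩, ?_, rfl⟩
      rw [Subfield.mem_comap]
      exact Subfield.subset_closure ⟨s, hs, rfl⟩
    obtain ⟨z, hz, hzc⟩ := Subfield.mem_map.mp (h1 hc)
    rw [Subfield.mem_comap] at hz
    have : z = ⟨c, hcl hc⟩ := Subtype.ext hzc
    rwa [this] at hz
  have hl : p ∈ Polynomial.lifts (algebraMap Z K) := by
    rw [Polynomial.lifts_iff_coeff_lifts]
    intro i
    exact ⟨⟨p.coeff i, hcl (hpc i)⟩, rfl⟩
  obtain ⟨q, hq⟩ := (Polynomial.mem_lifts _).mp hl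
  have hqc : ∀ i, q.coeff i = ⟨p.coeff i, hcl (hpc i)⟩ := by
    intro i
    have h1 : ((q.coeff i : Z) : K) = p.coeff i := by
      have h2 := congrArg (fun r => Polynomial.coeff r i) hq
      simp only [coeff_map] at h2
      exact h2
    exact Subtype.ext h1
  refine ⟨q.map κ, ?_, ?_, ?_⟩
  · rw [Ne, Polynomial.map_eq_zero]
    rintro rfl
    simp at hq
    exact hp0 hq.symm
  · intro i
    rw [coeff_map, hqc]
    exact hcl2 _ (hpc i)
  · rw [← hq, eval_map_algebraMap] at hp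
    have h1 : q.eval ⟨y, hyZ⟩ = 0 := by
      apply (algebraMap Z K).injective
      rw [map_zero, ← hp, ← Polynomial.aeval_algebraMap_apply_eq_algebraMap_eval]
      rfl
    rw [Polynomial.eval_map, Polynomial.eval₂_at_apply, h1, map_zero]

/-- invariants of `g l` in `M l` -/
def Zf {K : Type} [Field K] [CharZero K] (T : Data K) (l : ℕ) : Subfield K where
  carrier := {x | x ∈ T.M l ∧ T.g l x = x}
  mul_mem' := fun ha hb => ⟨(T.M l).mul_mem ha.1 hb.1, by rw [map_mul, ha.2, hb.2]⟩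
  one_mem' := ⟨(T.M l).one_mem, map_one _⟩
  add_mem' := fun ha hb => ⟨(T.M l).add_mem ha.1 hb.1, by rw [map_add, ha.2, hb.2]⟩
  zero_mem' := ⟨(T.M l).zero_mem, map_zero _⟩
  neg_mem' := fun ha => ⟨(T.M l).neg_mem ha.1, by rw [map_neg, ha.2]⟩
  inv_mem' := fun _ ha => ⟨(T.M l).inv_mem ha.1, by rw [map_inv₀, ha.2]⟩

theorem mem_Zf {K : Type} [Field K] [CharZero K] {T : Data K} {l : ℕ} {x : K} :
    x ∈ Zf T l ↔ x ∈ T.M l ∧ T.g l x = x := Iff.rfl

theorem noalg_poly {K : Type} [Field K] [CharZero K] {T : Data K} {D : Type} [DivisionRing D]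
    {A : Alg T.toCore D} (hno : NoAlg A) (θ : D) (p : K[X]) (hp0 : p ≠ 0)
    (hc : ∀ i, p.coeff i ∈ fix T.g) (h : p.eval₂ A.ι θ = 0) : ∃ f ∈ fix T.g, θ = A.ι f :=
  hno θ p.natDegree p.coeff hc (by simpa using hp0) (by
    rw [← Polynomial.eval₂_eq_sum_range]; exact h)

theorem p_alg2 : Pool.Agent.Run7.h378.S_alg2 := by
  intro hf K _ _ T D _ A hb hE hno l ω hω hωF x hxM hxg
  classical
  obtain ⟨N, e, he, _, hspan⟩ := hE.basis l
  have hpow : ∀ i : ℕ, ω ^ i ∈ A.El l := by
    intro i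
    induction i with
    | zero => rw [pow_zero]; exact hE.one_mem l
    | succ i ih => rw [pow_succ]; exact hE.mul_mem l _ _ ih hω
  obtain ⟨z, hzZ, hz0, hz⟩ := exists_relation (Zf T l) A.ι N e (fun i => ω ^ (i : ℕ)) (by
    intro i
    obtain ⟨x, hx, hx2⟩ := hspan (ω ^ (i : ℕ)) (hpow i)
    exact ⟨x, fun j => ⟨(hx j).2, (hx j).1⟩, hx2⟩)
  -- some coefficient is outside `F`
  obtain ⟨i₀, hi₀⟩ : ∃ i, z i ∉ fix T.g := by
    by_contra hcon
    push Not at hcon
    let p : K[X] := ∑ i : Fin (N + 1), monomial (i : ℕ) (z i)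
    have hpc : ∀ i : Fin (N + 1), p.coeff i = z i := by
      intro i
      simp only [p, finsetSum_coeff, coeff_monomial]
      rw [Finset.sum_eq_single i]
      · simp
      · intro b _ hbi
        rw [if_neg]
        intro h
        exact hbi (Fin.ext h)
      · intro h; exact absurd (Finset.mem_univ _) h
    obtain ⟨f, hf1, hf2⟩ := noalg_poly hno ω p (by
      intro h0
      apply hz0
      funext i
      rw [← hpc i, h0]; simp) (by
      intro i
      simp only [p, finsetSum_coeff, coeff_monomial]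
      refine Subfield.sum_mem _ fun j _ => ?_
      split_ifs
      · exact hcon j
      · exact Subfield.zero_mem _) (by
      simp only [p, eval₂_finsetSum, eval₂_monomial]
      exact hz)
    exact hωF ⟨f, hf1, hf2.symm⟩
  set t := z i₀ with ht
  have htZ : t ∈ Zf T l := hzZ i₀
  -- the commutative field
  set S₀ : Set D := A.ι '' (Zf T l : Set K) ∪ {ω} with hS₀
  have hcomω : ∀ a ∈ Zf T l, A.ι a * ω = ω * A.ι a := fun a ha =>
    hb.cen l a ha.2 ω (hE.sub l hω)
  have hcomm : ∀ a ∈ S₀, ∀ b ∈ S₀, a * b = b * a := by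
    rintro a (⟨a, ha, rfl⟩ | rfl) b (⟨b, hb', rfl⟩ | rfl)
    · rw [← map_mul, ← map_mul, mul_comm]
    · exact hcomω a ha
    · exact (hcomω b hb').symm
    · rfl
  let _ : Field (cc S₀) := ccField hcomm
  let κ : Zf T l →+* cc S₀ := RingHom.codRestrict (A.ι.comp (Zf T l).subtype) (cc S₀)
    (fun a => subset_cc (Or.inl ⟨a, a.2, rfl⟩))
  have hκ : ∀ a : Zf T l, ((κ a : cc S₀) : D) = A.ι a := fun a => rfl
  let ωc : cc S₀ := ⟨ω, subset_cc (Or.inr rfl)⟩
  have hFZ : ∀ s ∈ (fix T.g : Set K) ∩ (T.M l : Set K), s ∈ Zf T l := fun s hs =>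
    ⟨hs.2, hs.1 l⟩
  -- the constants
  let F₁ : Subfield (cc S₀) := (((fix T.g ⊓ T.M l : Subfield K)).comap (Zf T l).subtype).map κ
  have hF₁ : ∀ u, u ∈ F₁ ↔ ∃ s, ∃ hs : s ∈ (fix T.g : Set K) ∩ (T.M l : Set K),
      u = κ ⟨s, hFZ s hs⟩ := by
    intro u
    constructor
    · intro hu
      obtain ⟨a, ha, rfl⟩ := Subfield.mem_map.mp hu
      exact ⟨a, ha, rfl⟩
    · rintro ⟨s, hs, rfl⟩
      exact Subfield.mem_map.mpr ⟨⟨s, hFZ s hs⟩, hs, rfl⟩
  -- step B
  have stepB : ∀ a (ha : a ∈ Zf T l), κ ⟨a, ha⟩ ∈ acl ((F₁ : Set (cc S₀)) ∪ {κ ⟨t, htZ⟩}) := by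
    intro a ha
    have h1 := T.trdeg l t a htZ.1 hi₀ ha.1
    have h2 := acl_map (Zf T l) κ _ (by
      rintro s (hs | rfl)
      · exact hFZ s hs
      · exact htZ) a ha h1
    refine acl_mono ?_ h2
    rintro u ⟨s, hs | hs, rfl⟩
    · exact Or.inl ((hF₁ _).mpr ⟨s, hs, rfl⟩)
    · right
      have : s = t := hs
      subst this
      rfl
  -- step A
  have stepA : ωc ∈ acl (Set.range κ) := by
    rw [mem_acl_iff]
    let p : (cc S₀)[X] := ∑ i : Fin (N + 1), monomial (i : ℕ) (κ ⟨z i, hzZ i⟩)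
    have hpc : ∀ i : Fin (N + 1), p.coeff i = κ ⟨z i, hzZ i⟩ := by
      intro i
      simp only [p, finsetSum_coeff, coeff_monomial]
      rw [Finset.sum_eq_single i]
      · simp
      · intro b _ hbi
        rw [if_neg]
        intro h
        exact hbi (Fin.ext h)
      · intro h; exact absurd (Finset.mem_univ _) h
    refine ⟨p, ?_, ?_, ?_⟩
    · intro h0
      apply hi₀
      have h1 := hpc i₀
      rw [h0, coeff_zero] at h1
      have h2 := κ.injective (h1.symm.trans (map_zero κ).symm)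
      have h3 : z i₀ = 0 := congrArg Subtype.val h2
      rw [ht, h3]
      exact Subfield.zero_mem _
    · intro i
      simp only [p, finsetSum_coeff, coeff_monomial]
      refine Subfield.sum_mem _ fun j _ => ?_
      split_ifs
      · exact Subfield.subset_closure ⟨_, rfl⟩
      · exact Subfield.zero_mem _
    · simp only [p, eval_finsetSum, eval_monomial]
      apply Subtype.ext
      push_cast
      exact hz
  have hω1 : ωc ∈ acl ((F₁ : Set (cc S₀)) ∪ {κ ⟨t, htZ⟩}) := by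
    refine hf.idem _ _ (acl_mono ?_ stepA)
    rintro u ⟨a, rfl⟩
    exact stepB a a.2
  -- step C
  have stepC : ωc ∉ acl (F₁ : Set (cc S₀)) := by
    intro h
    rw [mem_acl_iff] at h
    obtain ⟨p, hp0, hpc, hp⟩ := h
    rw [Subfield.closure_eq] at hpc
    choose s hs hs2 using fun i => (hF₁ _).mp (hpc i)
    obtain ⟨f, hf1, hf2⟩ := hno ω p.natDegree s (fun i => (hs i).1) (by
      intro h0
      apply hp0
      rw [← Polynomial.leadingCoeff_eq_zero, Polynomial.leadingCoeff, hs2]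
      rw [← map_zero κ]
      congr 1
      exact Subtype.ext h0) (by
      rw [Polynomial.eval_eq_sum_range] at hp
      have h1 := congrArg (fun u : cc S₀ => (u : D)) hp
      push_cast at h1
      rw [← h1]
      refine Finset.sum_congr rfl fun i _ => ?_
      rw [hs2 i]
      rfl)
    exact hωF ⟨f, hf1, hf2.symm⟩
  have stepD : κ ⟨t, htZ⟩ ∈ acl ((F₁ : Set (cc S₀)) ∪ {ωc}) := hf.exch _ _ _ _ hω1 stepC
  have stepE : κ ⟨x, hxM, hxg⟩ ∈ acl ((F₁ : Set (cc S₀)) ∪ {ωc}) := by
    refine hf.idem _ _ (acl_mono ?_ (stepB x ⟨hxM, hxg⟩))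
    rintro u (hu | rfl)
    · exact hf.sub _ _ (Or.inl hu)
    · exact stepD
  obtain ⟨n, p, hpn, hps⟩ := hf.poly2 (cc S₀) F₁ ωc _ stepE
  refine ⟨n, fun i => ((aeval ωc (p i) : cc S₀) : D), ?_, ?_, ?_⟩
  · intro i
    have e1 : ((aeval ωc (p i) : cc S₀) : D) =
        ∑ j ∈ range ((p i).natDegree + 1),
          ((algebraMap F₁ (cc S₀) ((p i).coeff j) : cc S₀) : D) * ω ^ j := by
      rw [Polynomial.aeval_eq_sum_range]
      push_cast
      exact Finset.sum_congr rfl fun j _ => by rw [Algebra.smul_def]; rfl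
    simp only [e1]
    refine Subring.sum_mem _ fun j _ => ?_
    have hω' : ω ∈ Subring.closure (A.ι '' ((fix T.g : Set K) ∩ (T.M l : Set K)) ∪ {ω}) :=
      Subring.subset_closure (Or.inr rfl)
    refine Subring.mul_mem _ ?_ (Subring.pow_mem _ hω' j)
    obtain ⟨s, hs, hs2⟩ := (hF₁ _).mp ((p i).coeff j).2
    have : ((algebraMap F₁ (cc S₀) ((p i).coeff j) : cc S₀) : D) = A.ι s := by
      change (((p i).coeff j : cc S₀) : D) = _
      rw [hs2]
      rfl
    rw [this]
    exact Subring.subset_closure (Or.inl ⟨s, hs, rfl⟩)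
  · intro h
    apply hpn
    exact Subtype.ext h
  · have h1 := congrArg (fun u : cc S₀ => (u : D)) hps
    push_cast at h1
    exact h1

end Pool.Agent.Run7.h270.MP57
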